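import Pool.Agent.Y655.RZ.Par3
import Pool.Agent.Y212.RZ.Lag0
import Pool.Agent.Y448.RZ.Type

/-!
# Project MT: the dimension of the group of the classes, without a hypothesis on the units
-/

set_option autoImplicit false

namespace Pool.Agent.Y419.MT

open Finset Pool.Agent.W262.RK Pool.Agent.W307.RT Pool.Agent.W307.RS Pool.Agent.W307.SE
  Pool.Agent.W307.FK Pool.Agent.W214.RK2 Pool.Agent.Y667.RP Pool.Agent.Y667.RZ
  Pool.Agent.Y655.RZ

open NumberTheorySymbols jacobiSym

/-! ### the units -/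

/-- the compatibility of a residue modulo eight with a unit -/
def ok (r : ℕ) (t : ℤ) : Bool :=
  if t = -1 then decide (r = 1 ∨ r = 5) else if t = 2 then decide (r = 1 ∨ r = 7)
  else if t = -2 then decide (r = 1 ∨ r = 3) else true

lemma rk : ∀ R ∈ ({1, 3, 5, 7} : Finset ℕ).powerset, ∀ K ∈ ({1, -1, 2, -2} : Finset ℤ).powerset,
    (∀ r ∈ R, ∀ t ∈ K, ok r t = true) → R.card * K.card ≤ 4 := by
  decide +kernel

/-- the units which are squares at all primes of `M` -/
def KK (M : ℕ) : Finset ℤ :=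
  ({1, -1, 2, -2} : Finset ℤ).filter fun t => ∀ p ∈ M.primeFactors, sgn p t = false

lemma KK_dvd {M : ℕ} (hMo : Odd M) {t : ℤ} (ht : t ∈ KK M) {p : ℕ} (hp : p ∈ M.primeFactors) :
    J(t | p) = 1 := by
  unfold KK at ht
  rw [mem_filter] at ht
  have hpp := Nat.prime_of_mem_primeFactors hp
  have hpM := Nat.dvd_of_mem_primeFactors hp
  have hpo : Odd p := Odd.of_dvd_nat hMo hpM
  have h1 : t ∣ 2 := by
    have := ht.1
    simp only [mem_insert, mem_singleton] at this
    rcases this with rfl | rfl | rfl | rfl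
    · exact one_dvd _
    · exact ⟨-2, by norm_num⟩
    · exact dvd_rfl
    · exact ⟨-1, by norm_num⟩
  have h2 : ¬ (p : ℤ) ∣ t := by
    intro h
    have h3 : (p : ℤ) ∣ 2 := h.trans h1
    have h4 : p ∣ 2 := by exact_mod_cast h3
    have h5 := (Nat.prime_dvd_prime_iff_eq hpp Nat.prime_two).1 h4
    rw [h5] at hpo
    exact absurd hpo (by decide)
  have h3 := ht.2 p hp
  rw [sgn_ndvd hpp h2] at h3
  rw [← sg_sg0 hpp h2, h3]
  rfl

lemma KK_jac {M : ℕ} (hM : Squarefree M) (hMo : Odd M) {t : ℤ} (ht : t ∈ KK M) {d : ℕ}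
    (hd : d ∈ M.divisors) : J(t | d) = 1 := by
  have hdM := Nat.dvd_of_mem_divisors hd
  rw [← jac_sqf (hM.squarefree_of_dvd hdM)]
  refine prod_eq_one fun p hp => KK_dvd hMo ht ?_
  rw [Nat.mem_primeFactors] at hp ⊢
  exact ⟨hp.1, hp.2.1.trans hdM, hM.ne_zero⟩

lemma KK_ok {M : ℕ} (hM : Squarefree M) (hMo : Odd M) {t : ℤ} (ht : t ∈ KK M) {d : ℕ}
    (hd : d ∈ M.divisors) : ok (d % 8) t = true := by
  have hJ := KK_jac hM hMo ht hd
  have ho : Odd d := Odd.of_dvd_nat hMo (Nat.dvd_of_mem_divisors hd)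
  have ho2 : d % 2 = 1 := Nat.odd_iff.1 ho
  unfold ok
  split_ifs with h1 h2 h3
  · rw [h1, jacobiSym.at_neg_one ho, ZMod.χ₄_nat_eq_if_mod_four, if_neg (by omega)] at hJ
    rw [decide_eq_true_iff]
    by_cases h4 : d % 4 = 1
    · omega
    · rw [if_neg h4] at hJ
      exact absurd hJ (by decide)
  · rw [h2, jacobiSym.at_two ho, ZMod.χ₈_nat_eq_if_mod_eight, if_neg (by omega)] at hJ
    rw [decide_eq_true_iff]
    by_contra h4
    rw [if_neg h4] at hJ
    exact absurd hJ (by decide)
  · rw [h3, jacobiSym.at_neg_two ho, ZMod.χ₈'_nat_eq_if_mod_eight, if_neg (by omega)] at hJ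
    rw [decide_eq_true_iff]
    by_contra h4
    rw [if_neg h4] at hJ
    exact absurd hJ (by decide)
  · rfl

/-- the divisors in one class modulo 8 -/
lemma card_F1' {M : ℕ} (hM : Squarefree M) (hMo : Odd M) :
    M.divisors.card * (KK M).card ≤ 4 * (M.divisors.filter (fun d => d % 8 = 1)).card := by
  classical
  have hodd : ∀ d ∈ M.divisors, d % 2 = 1 := by
    intro d hd
    have h1 := Nat.dvd_of_mem_divisors hd
    exact Nat.odd_iff.1 (Odd.of_dvd_nat hMo h1)
  have hfib : ∀ r : ℕ, (M.divisors.filter (fun d => d % 8 = r)).card ≤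
      (M.divisors.filter (fun d => d % 8 = 1)).card := by
    intro r
    rcases (M.divisors.filter (fun d => d % 8 = r)).eq_empty_or_nonempty with h | ⟨d0, hd0⟩
    · rw [h]; simp
    · rw [mem_filter] at hd0
      have hs0 : Squarefree (d0 : ℤ) := Int.squarefree_natCast.2
        (hM.squarefree_of_dvd (Nat.dvd_of_mem_divisors hd0.1))
      have hp0 : (0 : ℤ) < d0 := by
        have := Nat.pos_of_mem_divisors hd0.1
        exact_mod_cast this
      apply card_le_card_of_injOn (fun d : ℕ => (sp (d0 : ℤ) (d : ℤ)).natAbs)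
      · intro d hd
        rw [mem_coe, mem_filter] at hd
        rw [mem_coe, mem_filter, Nat.mem_divisors]
        have hs : Squarefree (d : ℤ) := Int.squarefree_natCast.2
          (hM.squarefree_of_dvd (Nat.dvd_of_mem_divisors hd.1))
        have hp : (0 : ℤ) < d := by
          have := Nat.pos_of_mem_divisors hd.1
          exact_mod_cast this
        refine ⟨⟨natAbs_dvd (sp_sqf hs0 hs) ?_, hM.ne_zero⟩, ?_⟩
        · intro q hq hqd
          rcases sp_dvd hs0 hq hqd with h | h
          · exact (Int.natCast_dvd_natCast.1 h).trans (Nat.dvd_of_mem_divisors hd0.1)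
          · exact (Int.natCast_dvd_natCast.1 h).trans (Nat.dvd_of_mem_divisors hd.1)
        · have h1 : sp (d0 : ℤ) d % 8 = 1 := by
            apply sp_mod8 hs0
            · have := hodd d0 hd0.1
              omega
            · have := hd0.2
              have := hd.2
              omega
          have h2 := sp_pos hs0 hp0 hp
          show (sp (d0 : ℤ) (d : ℤ)).natAbs % 8 = 1
          omega
      · intro d hd d' hd' h
        rw [mem_coe, mem_filter] at hd hd'
        have hs : Squarefree (d : ℤ) := Int.squarefree_natCast.2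
          (hM.squarefree_of_dvd (Nat.dvd_of_mem_divisors hd.1))
        have hp : (0 : ℤ) < d := by
          have := Nat.pos_of_mem_divisors hd.1
          exact_mod_cast this
        have hs' : Squarefree (d' : ℤ) := Int.squarefree_natCast.2
          (hM.squarefree_of_dvd (Nat.dvd_of_mem_divisors hd'.1))
        have hp' : (0 : ℤ) < d' := by
          have := Nat.pos_of_mem_divisors hd'.1
          exact_mod_cast this
        have h1 := sp_pos hs0 hp0 hp
        have h2 := sp_pos hs0 hp0 hp'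
        have h3 : sp (d0 : ℤ) d = sp d0 d' := by
          simp only at h
          omega
        have h4 := sp_inj hs0 hs hs' h3
        exact_mod_cast h4
  set R := M.divisors.image (fun d => d % 8) with hR
  have h1 : M.divisors.card ≤ (M.divisors.filter (fun d => d % 8 = 1)).card * R.card := by
    refine card_le_mul_card_image M.divisors _ ?_
    intro r _
    exact hfib r
  have h2 : R.card * (KK M).card ≤ 4 := by
    apply rk R
    · rw [mem_powerset]
      intro r hr
      rw [hR, mem_image] at hr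
      obtain ⟨d, hd, rfl⟩ := hr
      have := hodd d hd
      simp only [mem_insert, mem_singleton]
      omega
    · rw [mem_powerset]
      exact filter_subset _ _
    · intro r hr t ht
      rw [hR, mem_image] at hr
      obtain ⟨d, hd, rfl⟩ := hr
      exact KK_ok hM hMo ht hd
  calc M.divisors.card * (KK M).card
      ≤ ((M.divisors.filter (fun d => d % 8 = 1)).card * R.card) * (KK M).card :=
        Nat.mul_le_mul_right _ h1
    _ = (M.divisors.filter (fun d => d % 8 = 1)).card * (R.card * (KK M).card) := by ring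
    _ ≤ (M.divisors.filter (fun d => d % 8 = 1)).card * 4 := Nat.mul_le_mul_left _ h2
    _ = _ := by ring

lemma VA_fin' {M : ℕ} (hMo : Odd M) : (VA M).Finite := by
  have hM0 : M ≠ 0 := hMo.pos.ne'
  refine Set.Finite.subset ((Set.finite_Icc (-(M : ℤ)) M).prod
    (Set.finite_Icc (-((2 * M : ℕ) : ℤ)) ((2 * M : ℕ) : ℤ))) ?_
  rintro d ⟨h1, h2, h3, h4, h5, h6⟩
  have e1 := Nat.le_of_dvd (Nat.pos_of_ne_zero hM0) (natAbs_dvd h1 h5)
  have e2 := Nat.le_of_dvd (by omega) (natAbs_dvd h2 h6)
  refine ⟨?_, ?_⟩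
  · rw [Set.mem_Icc]
    omega
  · rw [Set.mem_Icc]
    omega

/-- the lower bound for the number of the classes -/
lemma card_VA' {M : ℕ} (hM : Squarefree M) (hMo : Odd M) :
    4 ^ M.primeFactors.card * (KK M).card ≤ (VA M).ncard := by
  classical
  have hfin := VA_fin' hMo
  set F1 := M.divisors.filter (fun d => d % 8 = 1) with hF1
  set S4 : Finset ℤ := {1, -1, 2, -2} with hS4
  have hodd : ∀ d ∈ M.divisors, d % 2 = 1 := by
    intro d hd
    have h1 := Nat.dvd_of_mem_divisors hd
    exact Nat.odd_iff.1 (Odd.of_dvd_nat hMo h1)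
  set f : ℕ × (ℤ × ℕ) → ℤ × ℤ := fun t => ((t.1 : ℤ), t.2.1 * (t.2.2 : ℤ)) with hf
  have hS4m : ∀ σ ∈ S4, σ = 1 ∨ σ = -1 ∨ σ = 2 ∨ σ = -2 := by
    intro σ hσ
    simpa [hS4] using hσ
  have hinj : Set.InjOn f (F1 ×ˢ (S4 ×ˢ M.divisors) : Finset (ℕ × (ℤ × ℕ))) := by
    rintro ⟨t, σ, g⟩ ht ⟨t', σ', g'⟩ ht' h
    rw [mem_coe, mem_product, mem_product] at ht ht'
    obtain ⟨h1, h2, h3⟩ := ht
    obtain ⟨k1, k2, k3⟩ := ht'
    simp only at h1 h2 h3 k1 k2 k3
    simp only [hf, Prod.mk.injEq] at h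
    obtain ⟨e1, e2⟩ := h
    have o1 := hodd g h3
    have o2 := hodd g' k3
    have e3 : t = t' := by exact_mod_cast e1
    have e4 : σ = σ' ∧ g = g' := by
      rcases hS4m σ h2 with rfl | rfl | rfl | rfl <;>
        rcases hS4m σ' k2 with rfl | rfl | rfl | rfl <;>
        first
        | (refine ⟨rfl, ?_⟩; omega)
        | (exfalso; omega)
    rw [e3, e4.1, e4.2]
  have hsub : ((F1 ×ˢ (S4 ×ˢ M.divisors)).image f : Set (ℤ × ℤ)) ⊆ VA M := by
    rintro _ hx
    rw [mem_coe, mem_image] at hx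
    obtain ⟨⟨t, σ, g⟩, ht, rfl⟩ := hx
    rw [mem_product, mem_product, hF1, mem_filter] at ht
    obtain ⟨⟨h1, h1'⟩, h2, h3⟩ := ht
    simp only at h1 h1' h2 h3
    have o1 := hodd g h3
    have hg : Squarefree g := hM.squarefree_of_dvd (Nat.dvd_of_mem_divisors h3)
    have hσ := hS4m σ h2
    refine ⟨Int.squarefree_natCast.2 (hM.squarefree_of_dvd (Nat.dvd_of_mem_divisors h1)), ?_,
      ?_, ?_, ?_, ?_⟩
    · show Squarefree (σ * (g : ℤ))
      rw [← Int.squarefree_natAbs, Int.natAbs_mul, Int.natAbs_natCast]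
      rcases hσ with rfl | rfl | rfl | rfl
      · simpa using hg
      · simpa using hg
      · show Squarefree (2 * g)
        rw [Nat.squarefree_mul ((Nat.coprime_two_left (n := g)).2 (Nat.odd_iff.2 o1))]
        exact ⟨Nat.prime_two.prime.irreducible.squarefree, hg⟩
      · show Squarefree (2 * g)
        rw [Nat.squarefree_mul ((Nat.coprime_two_left (n := g)).2 (Nat.odd_iff.2 o1))]
        exact ⟨Nat.prime_two.prime.irreducible.squarefree, hg⟩
    · have := Nat.pos_of_mem_divisors h1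
      show (0 : ℤ) < (t : ℤ)
      exact_mod_cast this
    · show (t : ℤ) % 8 = 1
      omega
    · intro q hq hqd
      exact (Int.natCast_dvd_natCast.1 hqd).trans (Nat.dvd_of_mem_divisors h1)
    · intro q hq hqd
      have hqd' : (q : ℤ) ∣ σ * (g : ℤ) := hqd
      rcases (Nat.prime_iff_prime_int.1 hq).dvd_or_dvd hqd' with h | h
      · have h5 : (q : ℤ) ∣ 2 := by
          rcases hσ with rfl | rfl | rfl | rfl
          · exact h.trans (by norm_num)
          · exact h.trans (by norm_num)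
          · exact h
          · exact h.trans (by norm_num)
        have h6 : q ∣ 2 := by exact_mod_cast h5
        exact h6.mul_right _
      · exact ((Int.natCast_dvd_natCast.1 h).trans (Nat.dvd_of_mem_divisors h3)).mul_left _
  have h1 := Set.ncard_le_ncard hsub hfin
  rw [Set.ncard_coe_finset, card_image_of_injOn hinj, card_product, card_product] at h1
  have h2 := card_F1' hM hMo
  have h3 := card_div hM
  have h4 : S4.card = 4 := by rw [hS4]; decide
  rw [h4, h3] at h1
  rw [h3] at h2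
  calc 4 ^ M.primeFactors.card * (KK M).card
      = (2 ^ M.primeFactors.card * (KK M).card) * 2 ^ M.primeFactors.card := by
        rw [show (4 : ℕ) = 2 * 2 by norm_num, mul_pow]
        ring
    _ ≤ (4 * F1.card) * 2 ^ M.primeFactors.card := Nat.mul_le_mul_right _ h2
    _ = F1.card * (4 * 2 ^ M.primeFactors.card) := by ring
    _ ≤ _ := h1

lemma Ph_ker' {M : ℕ} (hM : Odd M) {d : ℤ × ℤ} (hd : d ∈ VA M)
    (h0 : Ph M.primeFactors d = 0) : d.1 = 1 ∧ d.2 ∈ KK M := by
  obtain ⟨h1, h2, h3, h4, h5, h6⟩ := hd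
  have hM0 : M ≠ 0 := hM.pos.ne'
  have hc : ∀ p ∈ M.primeFactors, dv p d.1 = false ∧ dv p d.2 = false ∧ sgn p d.1 = false ∧
      sgn p d.2 = false := by
    intro p hp
    have h := congrFun h0 ⟨p, hp⟩
    have h' : toX (dv p d.1) (dv p d.2) (sgn p d.1) (sgn p d.2) = toX false false false false := h
    unfold toX at h'
    simp only [Prod.mk.injEq] at h'
    exact ⟨b2z_inj _ _ h'.1, b2z_inj _ _ h'.2.1, b2z_inj _ _ h'.2.2.1, b2z_inj _ _ h'.2.2.2⟩
  have e1 : d.1 = 1 := by
    have : d.1.natAbs = 1 := by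
      rw [Nat.eq_one_iff_not_exists_prime_dvd]
      intro q hq hqd
      have hqd' : (q : ℤ) ∣ d.1 := Int.natCast_dvd.mpr hqd
      have hqM := h5 q hq hqd'
      have := (hc q (Nat.mem_primeFactors.2 ⟨hq, hqM, hM0⟩)).1
      unfold dv at this
      rw [decide_eq_false_iff_not] at this
      exact this hqd'
    omega
  have e2 : d.2.natAbs ∣ 2 := by
    apply natAbs_dvd h2
    intro q hq hqd
    rcases (hq.dvd_mul).1 (h6 q hq hqd) with h | h
    · exact h
    · have := (hc q (Nat.mem_primeFactors.2 ⟨hq, h, hM0⟩)).2.1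
      unfold dv at this
      rw [decide_eq_false_iff_not] at this
      exact absurd hqd this
  have e3 : d.2 = 1 ∨ d.2 = -1 ∨ d.2 = 2 ∨ d.2 = -2 := by
    rcases (Nat.dvd_prime Nat.prime_two).1 e2 with h | h <;> omega
  refine ⟨e1, ?_⟩
  unfold KK
  rw [mem_filter]
  refine ⟨?_, fun p hp => (hc p hp).2.2.2⟩
  simpa using e3

lemma card_fib {M : ℕ} (hMo : Odd M) : (VA M).ncard ≤ (KK M).card * Nat.card (AM M) := by
  classical
  have hfin := VA_fin' hMo
  have hN : ∀ p ∈ M.primeFactors, p.Prime := fun p hp => Nat.prime_of_mem_primeFactors hp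
  have h1 := card_le_mul_card_image (f := Ph M.primeFactors) hfin.toFinset (KK M).card (by
    intro a ha
    rw [mem_image] at ha
    obtain ⟨d0, hd0, rfl⟩ := ha
    rw [Set.Finite.mem_toFinset] at hd0
    have hk : ∀ x ∈ hfin.toFinset.filter (fun x => Ph M.primeFactors x = Ph M.primeFactors d0),
        (sp2 d0 x).1 = 1 ∧ (sp2 d0 x).2 ∈ KK M := by
      intro x hx
      rw [mem_filter, Set.Finite.mem_toFinset] at hx
      apply Ph_ker' hMo (VA_mul hd0 hx.1)
      rw [Ph_mul hN hd0 hx.1, hx.2]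
      funext p
      have : ∀ x : XX, x + x = 0 := by decide
      exact this _
    apply card_le_card_of_injOn (fun x => (sp2 d0 x).2)
    · intro x hx
      exact (hk x hx).2
    · intro x hx y hy h
      have kx := (hk x hx).1
      have ky := (hk y hy).1
      rw [mem_coe, mem_filter, Set.Finite.mem_toFinset] at hx hy
      have e1 : sp d0.1 x.1 = sp d0.1 y.1 := kx.trans ky.symm
      have e2 : sp d0.2 x.2 = sp d0.2 y.2 := h
      exact Prod.ext (sp_inj hd0.1 hx.1.1 hy.1.1 e1) (sp_inj hd0.2.1 hx.1.2.1 hy.1.2.1 e2))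
  have h2 : (VA M).ncard = hfin.toFinset.card := Set.ncard_eq_toFinset_card _ hfin
  have h3 : Nat.card (AM M) = (hfin.toFinset.image (Ph M.primeFactors)).card := by
    rw [← Set.ncard_coe_finset, coe_image, Set.Finite.coe_toFinset, ← Nat.card_coe_set_eq]
    rfl
  rw [h2, h3]
  exact h1

lemma KK_pos (M : ℕ) : 0 < (KK M).card := by
  rw [card_pos]
  refine ⟨1, ?_⟩
  unfold KK
  rw [mem_filter]
  refine ⟨by simp, fun p _ => ?_⟩
  unfold sgn sg0
  simp

lemma AM_iso {M : ℕ} (hMo : Odd M) : ∀ x ∈ AM M, ∀ y ∈ AM M,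
    BB M.primeFactors (fun p => b2z (sg0 p (-1))) x y = 0 := by
  intro x hx y hy
  have hQ := QQ_AM hMo (x0 := 1) (y0 := 1) squarefree_one one_pos (by norm_num) squarefree_one
    (fun q hq h => by
      exfalso
      have : q ∣ 1 := by exact_mod_cast h
      exact hq.one_lt.ne' (Nat.dvd_one.1 this)) (fun q hq h => by
      exfalso
      have : q ∣ 1 := by exact_mod_cast h
      exact hq.one_lt.ne' (Nat.dvd_one.1 this))
  have h1 := hQ x hx
  have h2 := hQ y hy
  have h3 := hQ (x + y) (Submodule.add_mem _ hx hy)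
  rw [QQ_add, h1, h2, zero_add, zero_add] at h3
  exact h3

/-- the dimension of the group of the classes -/
lemma finrank_AM' {M : ℕ} (hM : Squarefree M) (hMo : Odd M) :
    Module.finrank (ZMod 2) (AM M) = 2 * M.primeFactors.card := by
  apply le_antisymm
  · exact iso_le M.primeFactors (fun p => b2z (sg0 p (-1))) _ (AM_iso hMo)
  · have h1 := card_VA' hM hMo
    have h2 := card_fib hMo
    have h3 := KK_pos M
    have h4 : 4 ^ M.primeFactors.card ≤ Nat.card (AM M) := by
      have h5 := h1.trans h2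
      rw [mul_comm] at h5
      exact Nat.le_of_mul_le_mul_left h5 h3
    rw [card_sub] at h4
    have h6 : 4 ^ M.primeFactors.card = 2 ^ (2 * M.primeFactors.card) := by
      rw [pow_mul]
      norm_num
    rw [h6] at h4
    exact (Nat.pow_le_pow_iff_right (by norm_num)).1 h4

/-! ### duality -/

lemma BB_ndg (N : Finset ℕ) (e : ℕ → ZMod 2) :
    (BB N e : LinearMap.BilinForm (ZMod 2) (N → XX)).Nondegenerate := by
  constructor
  · intro x hx
    exact BB_nondeg N e x hx
  · intro x hx
    apply BB_nondeg N e x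
    intro y
    rw [BB_comm]
    exact hx y

lemma lag_orth (N : Finset ℕ) (e : ℕ → ZMod 2) (A : Submodule (ZMod 2) (N → XX))
    (hA : ∀ x ∈ A, ∀ y ∈ A, BB N e x y = 0) (fA : Module.finrank (ZMod 2) A = 2 * N.card) :
    LinearMap.BilinForm.orthogonal (BB N e) A = A := by
  have h3 := LinearMap.BilinForm.finrank_orthogonal (BB_ndg N e) A
  have h4 : A ≤ LinearMap.BilinForm.orthogonal (BB N e) A := by
    intro x hx
    rw [LinearMap.BilinForm.mem_orthogonal_iff]
    intro y hy
    exact hA y hy x hx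
  have h6 := finrank_V N
  refine (Submodule.eq_of_le_of_finrank_eq h4 ?_).symm
  rw [h3, h6, fA]
  omega

lemma lag_sup (N : Finset ℕ) (e : ℕ → ZMod 2) (A W : Submodule (ZMod 2) (N → XX))
    (hA : ∀ x ∈ A, ∀ y ∈ A, BB N e x y = 0) (fA : Module.finrank (ZMod 2) A = 2 * N.card)
    (hW : ∀ x ∈ W, ∀ y ∈ W, BB N e x y = 0) (fW : Module.finrank (ZMod 2) W = 2 * N.card)
    (x : N → XX) (hx : ∀ y ∈ A, y ∈ W → BB N e y x = 0) : x ∈ A ⊔ W := by
  have hr : (BB N e : LinearMap.BilinForm (ZMod 2) (N → XX)).IsRefl := by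
    intro x y h
    show BB N e y x = 0
    rw [BB_comm]
    exact h
  have h1 := Pool.Agent.Y212.RZ.orthogonal_inf (BB_ndg N e) hr A W
  rw [lag_orth N e A hA fA, lag_orth N e W hW fW] at h1
  rw [← h1, LinearMap.BilinForm.mem_orthogonal_iff]
  intro y hy
  exact hx y hy.1 hy.2

/-! ### existence of a class -/

lemma WL_iso {M : ℕ} {L : ℕ → Bool → Bool → Bool → Bool → Prop} {hL : ∀ p, XC (L p)}
    (hI : ∀ p ∈ M.primeFactors, Pool.Agent.Y448.RZ.Iso p (L p)) :
    ∀ x ∈ WL M.primeFactors L hL, ∀ y ∈ WL M.primeFactors L hL,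
      BB M.primeFactors (fun p => b2z (sg0 p (-1))) x y = 0 := by
  intro x hx y hy
  rw [BB_apply]
  refine sum_eq_zero fun p _ => ?_
  have h1 := hI p p.2 _ _ _ _ _ _ _ _ (hx p) (hy p)
  have h2 : bl (b2z (sg0 p (-1))) (x p) (y p) =
      b2z (xor (hb (sg0 p (-1)) (z2b (x p).1) (z2b (x p).2.2.1) (z2b (y p).2.1) (z2b (y p).2.2.2))
        (hb (sg0 p (-1)) (z2b (y p).1) (z2b (y p).2.2.1) (z2b (x p).2.1) (z2b (x p).2.2.2))) := by
    unfold bl hb
    simp only [b2z_xor, b2z_and, b2z_z2b]
    ring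
  rw [h2, h1]
  rfl

/-- a prime which kills no class gives a solution -/
theorem exi_gen {M q : ℕ} {L : ℕ → Bool → Bool → Bool → Bool → Prop} (hM : Squarefree M)
    (hMo : Odd M) (hL : ∀ p, XC (L p)) (hI : ∀ p ∈ M.primeFactors, Pool.Agent.Y448.RZ.Iso p (L p))
    (hcard : ∀ p ∈ M.primeFactors, Nat.card {x : XX // LX (L p) x} = 4) (hq : q.Prime)
    (hqM : ¬ q ∣ 2 * M) (hnk : ∀ w ∈ VG M L, sgn q w.1 = false) :
    ∃ x, Pool.Agent.Y448.RZ.SolT M L q x := by
  classical
  have hq2 : q ≠ 2 := by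
    rintro rfl
    exact hqM (dvd_mul_right _ _)
  have hqM' : ¬ q ∣ M := fun h => hqM (h.mul_left _)
  have hMp : ∀ p ∈ M.primeFactors, p.Prime ∧ p ≠ 2 := fun p hp => by
    refine ⟨Nat.prime_of_mem_primeFactors hp, ?_⟩
    rintro rfl
    exact (Nat.not_even_iff_odd.2 hMo) (even_iff_two_dvd.2 (Nat.dvd_of_mem_primeFactors hp))
  set N := M.primeFactors with hN
  set e : ℕ → ZMod 2 := fun p => b2z (sg0 p (-1)) with he
  have hqN : q ∉ N := fun h => hqM' (Nat.dvd_of_mem_primeFactors h)
  have hfW : Module.finrank (ZMod 2) (WL N L hL) = 2 * N.card := by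
    apply finrank_of_card
    rw [card_WL, prod_congr rfl (g := fun _ => 4) hcard, prod_const, pow_mul]
    norm_num
  -- the vector attached to `q`
  set X : N → XX := fun p => toX false false false (sg0 p q) with hX
  have hmem : X ∈ AM M ⊔ WL N L hL := by
    apply lag_sup N e (AM M) (WL N L hL) (AM_iso hMo) (finrank_AM' hM hMo) (WL_iso hI) hfW
    rintro _ ⟨d, hd, rfl⟩ hyW
    have hdV : d ∈ VG M L := by
      refine ⟨hd.1, hd.2.1, hd.2.2.1, hd.2.2.2.1, hd.2.2.2.2.1, hd.2.2.2.2.2, ?_⟩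
      intro p hp
      exact (LX_toX (L p) _ _ _ _).1 (hyW ⟨p, hp⟩)
    have hs := hnk d hdV
    -- the product formula
    have hqs : Squarefree (q : ℤ) := Int.squarefree_natCast.2 hq.squarefree
    have P := prodf hd.1 hd.2.2.1 hd.2.2.2.1 hqs (insert q N) (by
      intro p hp
      rw [mem_insert] at hp
      rcases hp with rfl | hp
      · exact ⟨hq, hq2⟩
      · exact hMp p hp) (by
      intro p hp _ h
      rw [mem_insert]
      rcases h with h | h
      · exact Or.inr (Nat.mem_primeFactors.2 ⟨hp, hd.2.2.2.2.1 p hp h, hM.ne_zero⟩)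
      · exact Or.inl ((Nat.prime_dvd_prime_iff_eq hp hq).1 (by exact_mod_cast h)))
    rw [prod_insert hqN] at P
    have hdq : dv q d.1 = false := by
      unfold dv
      rw [decide_eq_false_iff_not]
      exact fun h => hqM' (hd.2.2.2.2.1 q hq h)
    have hqq : dv q (q : ℤ) = true := by
      unfold dv
      rw [decide_eq_true_iff]
    have hhq : hsb q d.1 q = false := by
      rw [hsb_eq, hdq, hqq, hs]
      unfold hb
      simp
    have hhp : ∀ p ∈ N, hsb p d.1 q = (dv p d.1 && sg0 p q) := by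
      intro p hp
      have hpp := (hMp p hp).1
      have hpq : ¬ (p : ℤ) ∣ (q : ℤ) := by
        intro h
        have h1 : p ∣ q := by exact_mod_cast h
        have h2 := (Nat.prime_dvd_prime_iff_eq hpp hq).1 h1
        rw [h2] at hp
        exact hqN hp
      have h1 : dv p (q : ℤ) = false := by
        unfold dv
        rw [decide_eq_false_iff_not]
        exact hpq
      rw [hsb_eq, h1, sgn_ndvd hpp hpq]
      unfold hb
      simp
    rw [hhq] at P
    have hsg : sg false = 1 := rfl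
    rw [hsg, one_mul] at P
    have S := sum_zero P
    rw [BB_apply]
    rw [← Finset.sum_coe_sort N (fun p => b2z (hsb p d.1 q))] at S
    rw [← S]
    refine sum_congr rfl fun p _ => ?_
    show bl (b2z (sg0 p (-1))) (toX (dv p d.1) (dv p d.2) (sgn p d.1) (sgn p d.2))
      (toX false false false (sg0 p q)) = _
    rw [hhp p p.2]
    have h0 : b2z false = 0 := rfl
    unfold bl toX
    simp only [b2z_and, h0]
    ring
  rw [Submodule.mem_sup] at hmem
  obtain ⟨_, ⟨d, hd, rfl⟩, w, hw, hsum⟩ := hmem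
  refine ⟨d, hd.1, hd.2.1, hd.2.2.1, hd.2.2.2.1, hd.2.2.2.2.1, hd.2.2.2.2.2, ?_⟩
  intro p hp
  have h1 := hw ⟨p, hp⟩
  have h2 : w ⟨p, hp⟩ = toX (dv p d.1) (dv p d.2) (sgn p d.1) (xor (sgn p d.2) (sg0 p q)) := by
    have h3 := congrFun hsum ⟨p, hp⟩
    rw [Pi.add_apply] at h3
    have h4 : w ⟨p, hp⟩ = Ph N d ⟨p, hp⟩ + X ⟨p, hp⟩ := by
      rw [← h3, ← add_assoc]
      have : ∀ x : XX, x + x = 0 := by decide
      rw [this, zero_add]
    rw [h4]
    show toX (dv p d.1) (dv p d.2) (sgn p d.1) (sgn p d.2) + toX false false false (sg0 p q) = _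
    unfold toX
    simp only [Prod.mk_add_mk, ← b2z_xor, Bool.xor_false]
  rw [h2] at h1
  exact (LX_toX (L p) _ _ _ _).1 h1

end Pool.Agent.Y419.MT
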