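import Pool.Agent.Y419.MT.Dim
import Pool.Agent.Y655.RZ.Par
import Pool.Agent.Y667.MT.Stm

/-!
# Project MT: EXI
-/

set_option autoImplicit false

namespace Pool.Agent.Y419.MT

open Finset Pool.Agent.W262.RK Pool.Agent.W307.RT Pool.Agent.W307.RS Pool.Agent.W307.SE
  Pool.Agent.W307.FK Pool.Agent.W214.RK2 Pool.Agent.Y667.RP Pool.Agent.Y667.RZ
  Pool.Agent.Y448.RZ Pool.Agent.Y667.MT

open NumberTheorySymbols

/-- a solution gives a new class -/
lemma up_gen {M q : ℕ} {L L1 : Pool.Agent.Y448.RZ.LC} {neg : Bool} (hM : M ≠ 0) (hq : q.Prime) (hqM : ¬ q ∣ 2 * M)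
    {x : ℤ × ℤ} (hx : SolT M L q x)
    (h1 : ∀ p ∈ M.primeFactors, ∀ v w h g, L p v w h g → L1 p v w h g)
    (hn : ∀ v w h g, LR 2 neg v w h g → L1 q v w h g) (hneg : sgn q x.1 = neg) :
    ¬ VG (M * q) L1 ⊆ VG M L := by
  obtain ⟨x1, x2, x3, x4, x5, x6, x7⟩ := hx
  have hqM' : ¬ q ∣ M := fun h => hqM (h.mul_left _)
  have a1 : ¬ (q : ℤ) ∣ x.1 := fun h => hqM' (x5 q hq h)
  have a2 : ¬ (q : ℤ) ∣ x.2 := fun h => hqM (x6 q hq h)
  have sx := sq_mul_q hq x2 a2
  rw [Set.not_subset]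
  refine ⟨(x.1, (q : ℤ) * x.2), ⟨x1, sx, x3, x4, ?_, ?_, ?_⟩, ?_⟩
  · intro r hr h
    exact (x5 r hr h).mul_right _
  · intro r hr h
    rcases (Nat.prime_iff_prime_int.1 hr).dvd_or_dvd h with h | h
    · have : r ∣ q := by exact_mod_cast h
      exact (this.mul_left _).mul_left _
    · rw [← mul_assoc]
      exact (x6 r hr h).mul_right _
  · intro p hp
    have hpp := Nat.prime_of_mem_primeFactors hp
    by_cases hpq : p = q
    · subst hpq
      apply hn
      unfold LR
      rw [if_neg (by decide), if_neg (by decide)]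
      have c1 : dv p ((p : ℤ) * x.2) = true := dv_true (dvd_mul_right _ _)
      refine ⟨dv_false a1, ?_⟩
      show sgn p x.1 = (dv p ((p : ℤ) * x.2) && neg)
      rw [c1, Bool.true_and]
      exact hneg
    · have hpM : p ∈ M.primeFactors := by
        rw [Nat.mem_primeFactors] at hp ⊢
        refine ⟨hpp, ?_, hM⟩
        rcases (hpp.dvd_mul).1 hp.2.1 with h | h
        · exact h
        · exact absurd ((Nat.prime_dvd_prime_iff_eq hpp hq).1 h) hpq
      apply h1 p hpM
      obtain ⟨e1, e2⟩ := mul_q hpp hq hpq x2 sx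
      show L p (dv p x.1) (dv p ((q : ℤ) * x.2)) (sgn p x.1) (sgn p ((q : ℤ) * x.2))
      rw [e1, e2]
      exact x7 p hpM
  · rintro ⟨_, _, _, _, _, h6, _⟩
    exact hqM (h6 q hq (dvd_mul_right _ _))

lemma up_LF {s : Fin 3 → ℕ} {E F : Finset ℕ} {q : ℕ} {p : ℕ} (hpp : p.Prime) (hq : q.Prime)
    (hpq : p ≠ q) (hF : p ∈ F ↔ p ∈ E) {v w h g : Bool} (hL : LF s E p v w h g) :
    LF (Function.update s 2 (s 2 * q)) F p v w h g := by
  intro j hj
  have e : decide (p ∈ F) = decide (p ∈ E) := by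
    rw [decide_eq_decide]
    exact hF
  rw [e]
  apply hL j
  by_cases h2 : j = 2
  · subst h2
    rw [Function.update_self] at hj
    rcases (hpp.dvd_mul).1 hj with h | h
    · exact h
    · exact absurd ((Nat.prime_dvd_prime_iff_eq hpp hq).1 h) hpq
  · rwa [Function.update_of_ne h2] at hj

lemma up_new {s : Fin 3 → ℕ} {F : Finset ℕ} {q : ℕ} (hqs : ¬ q ∣ ∏ j, s j) {v w h g : Bool}
    (hL : LR 2 (decide (q ∈ F)) v w h g) : LF (Function.update s 2 (s 2 * q)) F q v w h g := by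
  intro j hj
  by_cases h2 : j = 2
  · subst h2
    exact hL
  · rw [Function.update_of_ne h2] at hj
    exact absurd (hj.trans (dvd_prod_of_mem s (mem_univ j))) hqs

theorem EXI : St_EXI := by
  classical
  intro s E q hs hodd h17 hE hq hqs
  have hq2 : q ≠ 2 := by
    rintro rfl
    exact hqs (Dvd.dvd.mul_right (by norm_num) _)
  have hq17 : q ≠ 17 := by
    rintro rfl
    exact hqs (Dvd.dvd.mul_right (by norm_num) _)
  have hqm : ¬ q ∣ ∏ j, s j := fun h => hqs (h.mul_left _)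
  have hM : 17 * ∏ j, s j ≠ 0 := mul_ne_zero (by norm_num) hs.ne_zero
  have hqM : ¬ q ∣ 17 * ∏ j, s j := by
    intro h
    rcases (hq.dvd_mul).1 h with h | h
    · exact hq17 ((Nat.prime_dvd_prime_iff_eq hq (by norm_num)).1 h)
    · exact hqm h
  have hq2m : ¬ q ∣ 2 * ∏ j, s j := fun h => hqm (two_dvd_elim hq hq2 h)
  have hq2M : ¬ q ∣ 2 * (17 * ∏ j, s j) := fun h => hqM (two_dvd_elim hq hq2 h)
  have hqE : q ∉ E := fun h => hqm (Nat.dvd_of_mem_primeFactors (hE h))
  have hE2 : insert q E ∩ (∏ j, s j).primeFactors = E ∩ (∏ j, s j).primeFactors := by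
    rw [insert_inter_of_notMem]
    exact fun h => hqm (Nat.dvd_of_mem_primeFactors h)
  have hE3 : ∀ F : Finset ℕ, F = E ∨ F = insert q E →
      F ∩ (∏ j, s j).primeFactors = E ∩ (∏ j, s j).primeFactors := by
    rintro F (rfl | rfl)
    · rfl
    · exact hE2
  have hpm' : q ∈ (∏ l, Function.update s 2 (s 2 * q) l).primeFactors := by
    rw [upd_prod, Nat.mem_primeFactors]
    exact ⟨hq, dvd_mul_left _ _, mul_ne_zero hs.ne_zero hq.ne_zero⟩
  have h17' : sg0 q 17 = decide (jacobiSym 17 q = -1) := rfl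
  have twF : ∀ F : Finset ℕ, decide (q ∈ tw (∏ l, Function.update s 2 (s 2 * q) l) F) =
      xor (decide (q ∈ F)) (sg0 q 17) := by
    intro F
    rw [h17']
    have e : (q ∈ tw (∏ l, Function.update s 2 (s 2 * q) l) F) ↔
        ¬ (q ∈ F ↔ jacobiSym 17 q = -1) := by
      unfold tw
      rw [mem_filter]
      simp only [hpm', true_and]
    by_cases h1 : q ∈ F <;> by_cases h2 : jacobiSym 17 q = -1 <;> simp [e, h1, h2]
  -- choice of the sign
  have hch : ∀ b : Bool, ∃ F : Finset ℕ, (F = E ∨ F = insert q E) ∧ decide (q ∈ F) = b := by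
    intro b
    cases b
    · exact ⟨E, Or.inl rfl, decide_eq_false hqE⟩
    · exact ⟨insert q E, Or.inr rfl, decide_eq_true (mem_insert_self _ _)⟩
  refine ⟨fun hnk => ?_, fun hnk => ?_⟩
  · -- the curve
    obtain ⟨x, hx⟩ := exi_gen (L := LF s E) hs hodd (fun p => xcLF s E p) (fun p hp => isoLF hp)
      (by
        intro p hp
        obtain ⟨j, hj⟩ := Pool.Agent.Y655.RZ.exists_cls hs hp
        rw [hj]
        exact Pool.Agent.Y655.RZ.card_LR j _) hq hq2m (by rw [← V0_eq]; exact hnk)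
    obtain ⟨F, hF, hFq⟩ := hch (sgn q x.1)
    refine ⟨F, hF, ?_⟩
    rw [V0_upd, V0_eq]
    refine up_gen hs.ne_zero hq hq2m hx ?_ ?_ hFq.symm
    · intro p hp v w h g hL
      refine up_LF (Nat.prime_of_mem_primeFactors hp) hq ?_ (mem_iff_of_inter (hE3 F hF) hp) hL
      rintro rfl
      exact hqm (Nat.dvd_of_mem_primeFactors hp)
    · intro v w h g hL
      exact up_new hqm hL
  · -- the twist
    have hMs : Squarefree (17 * ∏ j, s j) := by
      rw [Nat.squarefree_mul (((show Nat.Prime 17 by norm_num).coprime_iff_not_dvd).2 h17)]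
      exact ⟨(show Nat.Prime 17 by norm_num).prime.irreducible.squarefree, hs⟩
    obtain ⟨x, hx⟩ := exi_gen (L := L17 s E) hMs (Odd.mul (by decide) hodd)
      (fun p => xcL17 s E p) (fun p hp => isoL17 hp)
      (by
        intro p hp
        by_cases hp17 : p = 17
        · subst hp17
          rw [Pool.Agent.Y655.RZ.L17_17]
          exact Pool.Agent.Y655.RZ.card_L1
        · obtain ⟨j, hj⟩ := Pool.Agent.Y655.RZ.exists_cls hs (pf17 hp hp17)
          rw [Pool.Agent.Y655.RZ.L17_ne s E hp17, hj]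
          exact Pool.Agent.Y655.RZ.card_LR j _) hq hq2M (by rw [← V17_eq]; exact hnk)
    obtain ⟨F, hF, hFq⟩ := hch (xor (sgn q x.1) (sg0 q 17))
    refine ⟨F, hF, ?_⟩
    rw [V17_upd, V17_eq]
    have hneg : sgn q x.1 = decide (q ∈ tw (∏ l, Function.update s 2 (s 2 * q) l) F) := by
      rw [twF, hFq, Bool.xor_assoc, Bool.xor_self, Bool.xor_false]
    refine up_gen hM hq hq2M hx ?_ ?_ hneg
    · intro p hp v w h g hL
      unfold L17 at hL ⊢
      split_ifs at hL ⊢ with h17p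
      · exact hL
      · have hp' := pf17 hp h17p
        refine up_LF (Nat.prime_of_mem_primeFactors hp) hq ?_
          (tw_iff hs.ne_zero hq (hE3 F hF) hp') hL
        rintro rfl
        exact hqm (Nat.dvd_of_mem_primeFactors hp')
    · intro v w h g hL
      unfold L17
      rw [if_neg hq17]
      exact up_new hqm hL

end Pool.Agent.Y419.MT
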