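import Pool.Agent.Y419.MT.Type2
import Pool.Agent.Y448.RZ.Half

/-!
# Project MT: HALF2
-/

set_option autoImplicit false

namespace Pool.Agent.Y419.MT

open Finset Pool.Agent.W262.RK Pool.Agent.W307.RT Pool.Agent.W307.RS Pool.Agent.W307.SE
  Pool.Agent.W307.FK Pool.Agent.W214.RK2 Pool.Agent.Y667.RP Pool.Agent.Y667.RZ
  Pool.Agent.Y448.RZ Pool.Agent.Y667.MT

theorem HALF2' (hTYPE : St_TYPE2) : St_HALF2 := by
  classical
  intro X s E hs hodd h17 hE hX
  set m := ∏ j, s j with hm
  set M := 136 * m with hMdef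
  have hm0 : m ≠ 0 := hs.ne_zero
  have hM0 : 0 < M := by
    rw [hMdef]
    exact Nat.mul_pos (by norm_num) (Nat.pos_of_ne_zero hm0)
  set R := (range M).filter (fun a => a.Coprime M) with hR
  set T := R.filter (fun a => ∃ q ∈ Pt X, q % M = a ∧ Ty2 s E q) with hT
  have hRcard : R.card = M.totient := by
    rw [Nat.totient_eq_card_coprime, hR]
    congr 1
    ext a
    simp only [mem_filter, Nat.coprime_comm]
  have hPt : ∀ q ∈ Pt X, q.Prime ∧ ¬ q ∣ 34 * m ∧ q.Coprime M ∧ (1 : ℝ) ≤ q := by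
    intro q hq
    unfold Pt at hq
    rw [mem_filter] at hq
    obtain ⟨_, hqp, hq1, _⟩ := hq
    have h1 : M < q := by
      have h2 : (M : ℝ) < q := by
        refine lt_of_lt_of_le ?_ hq1
        rw [hMdef]
        push_cast
        exact hX
      exact_mod_cast h2
    have h2 : ¬ q ∣ M := fun h => absurd (Nat.le_of_dvd hM0 h) (by omega)
    refine ⟨hqp, ?_, (Nat.Prime.coprime_iff_not_dvd hqp).2 h2, by exact_mod_cast hqp.one_le⟩
    intro h
    apply h2
    rw [hMdef]
    exact h.trans ⟨4, by ring⟩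
  have hTR : T ⊆ R := filter_subset _ _
  have hno : ∀ a ∈ T, ∀ b ∈ T, a * b % M ∉ T := by
    intro a ha b hb hc
    rw [hT, mem_filter] at ha hb hc
    obtain ⟨-, q1, hq1, h1, t1⟩ := ha
    obtain ⟨-, q2, hq2, h2, t2⟩ := hb
    obtain ⟨-, q3, hq3, h3, t3⟩ := hc
    obtain ⟨p1, d1, -⟩ := hPt q1 hq1
    obtain ⟨p2, d2, -⟩ := hPt q2 hq2
    obtain ⟨p3, d3, -⟩ := hPt q3 hq3
    refine hTYPE s E hs hodd h17 hE q1 q2 q3 p1 p2 p3 d1 d2 d3 ?_ ⟨t1, t2, t3⟩
    show q3 % M = (q1 * q2) % M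
    rw [h3, Nat.mul_mod q1 q2, h1, h2]
  have hcard := half_card hM0 T hTR hno
  -- the sums
  set L := ∑ q ∈ Pt X, 1 / ((q : ℝ) - 1) with hL
  have hL0 : 0 ≤ L := sum_nonneg fun q hq => by
    have := (hPt q hq).2.2.2
    exact div_nonneg zero_le_one (by linarith)
  have hφ : (0 : ℝ) < M.totient := by exact_mod_cast Nat.totient_pos.2 hM0
  have hmaps : ∀ q ∈ (Pt X).filter (fun q => Ty2 s E q), q % M ∈ T := by
    intro q hq
    rw [mem_filter] at hq
    rw [hT, mem_filter, hR, mem_filter, mem_range]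
    refine ⟨⟨Nat.mod_lt _ hM0, ?_⟩, q, hq.1, rfl, hq.2⟩
    have := (hPt q hq.1).2.2.1
    show Nat.gcd (q % M) M = 1
    rw [← Nat.gcd_rec, Nat.gcd_comm]
    exact this
  calc ∑ q ∈ (Pt X).filter (fun q => Ty2 s E q), 1 / ((q : ℝ) - 1)
      = ∑ a ∈ T, ∑ q ∈ ((Pt X).filter (fun q => Ty2 s E q)).filter (fun q => q % M = a),
          1 / ((q : ℝ) - 1) := (sum_fiberwise_of_maps_to hmaps _).symm
    _ ≤ ∑ a ∈ T, (L / M.totient + |∑ q ∈ (Pt X).filter (fun q => q % M = a), 1 / ((q : ℝ) - 1) -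
          L / M.totient|) := by
        refine sum_le_sum fun a _ => ?_
        have h1 : ∑ q ∈ ((Pt X).filter (fun q => Ty2 s E q)).filter (fun q => q % M = a),
            1 / ((q : ℝ) - 1) ≤ ∑ q ∈ (Pt X).filter (fun q => q % M = a), 1 / ((q : ℝ) - 1) := by
          apply sum_le_sum_of_subset_of_nonneg
          · intro q hq
            rw [mem_filter, mem_filter] at hq
            rw [mem_filter]
            exact ⟨hq.1.1, hq.2⟩
          · intro q hq _
            rw [mem_filter] at hq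
            have := (hPt q hq.1).2.2.2
            exact div_nonneg zero_le_one (by linarith)
        have h2 := le_abs_self (∑ q ∈ (Pt X).filter (fun q => q % M = a), 1 / ((q : ℝ) - 1) -
          L / M.totient)
        linarith
    _ = T.card * (L / M.totient) + ∑ a ∈ T,
          |∑ q ∈ (Pt X).filter (fun q => q % M = a), 1 / ((q : ℝ) - 1) - L / M.totient| := by
        rw [sum_add_distrib, sum_const, nsmul_eq_mul]
    _ ≤ L / 2 + Dsc X M := by
        apply add_le_add
        · rw [← mul_div_assoc, div_le_iff₀ hφ]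
          have h3 : (2 : ℝ) * T.card ≤ M.totient := by exact_mod_cast hcard
          nlinarith
        · unfold Dsc
          exact sum_le_sum_of_subset_of_nonneg hTR fun _ _ _ => abs_nonneg _

theorem HALF2 : St_HALF2 := HALF2' TYPE2

end Pool.Agent.Y419.MT
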