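import Pool.Agent.Y448.RZ.Type
import Pool.Agent.Y667.MT.Stm

/-!
# Project MT: TYPE2
-/

set_option autoImplicit false

namespace Pool.Agent.Y419.MT

open Finset Pool.Agent.W262.RK Pool.Agent.W307.RT Pool.Agent.W307.RS Pool.Agent.W307.SE
  Pool.Agent.W307.FK Pool.Agent.W214.RK2 Pool.Agent.Y667.RP Pool.Agent.Y667.RZ
  Pool.Agent.Y448.RZ Pool.Agent.Y667.MT

open NumberTheorySymbols

/-- no class is killed at a prime with a new class -/
lemma nokill {M p : ℕ} {L L1 : Pool.Agent.Y448.RZ.LC} {neg : Bool} (hM : M ≠ 0)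
    (hodd : Odd M) (hp : p.Prime) (hp2 : p ≠ 2) (hpM : ¬ p ∣ M)
    (hX : ∀ q ∈ M.primeFactors, XC (L q)) (hI : ∀ q ∈ M.primeFactors, Iso q (L q))
    (h1 : ∀ q ∈ M.primeFactors, ∀ v w h g, L1 q v w h g → L q v w h g)
    (hnew : ∀ v w h g, L1 p v w h g → LR 2 neg v w h g) (hfin : (VG M L).Finite)
    (hno : ¬ VG (M * p) L1 ⊆ VG M L) : ∀ w ∈ VG M L, sgn p w.1 = false := by
  intro w hw
  by_contra h
  have h2 : sgn p w.1 = true := by
    cases h3 : sgn p w.1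
    · exact absurd h3 h
    · rfl
  apply hno
  refine (KILLG (j := 2) hM hodd hp hp2 hpM hX hI h1 hnew hw ?_ hfin).1
  unfold phi
  rw [if_neg (by decide), if_neg (by decide)]
  exact h2

/-- the symbols of the third solution -/
lemma sol_third2 {M q1 q2 q3 : ℕ} {L : Pool.Agent.Y448.RZ.LC} (hM : M ≠ 0) (hodd : Odd M)
    (hX : ∀ p ∈ M.primeFactors, XC (L p)) (hI : ∀ p ∈ M.primeFactors, Iso p (L p))
    (hq1 : q1.Prime) (hq2 : q2.Prime) (hq3 : q3.Prime)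
    (h1M : ¬ q1 ∣ 2 * M) (h2M : ¬ q2 ∣ 2 * M) (h3M : ¬ q3 ∣ 2 * M)
    (nk1 : ∀ w ∈ VG M L, sgn q1 w.1 = false) (nk2 : ∀ w ∈ VG M L, sgn q2 w.1 = false)
    (h3 : q3 ≡ q1 * q2 [MOD M]) {x y z : ℤ × ℤ} (hx : SolT M L q1 x) (hy : SolT M L q2 y)
    (hz : SolT M L q3 z) : (q1 = q2 → sgn q3 z.1 = false) ∧
      (q1 ≠ q2 → sgn q3 z.1 = xor (sgn q1 x.1) (sgn q2 y.1)) := by
  have hr := recip hz.1 hz.2.2.1 hz.2.2.2.1 hz.2.2.2.2.1 hq1 hq2 hq3 h1M h2M h3M h3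
  refine ⟨?_, ?_⟩
  · rintro rfl
    rw [hr, Bool.xor_self]
  · intro h12
    have h4 := sol_mul3 hX (sg0_mul hq1 hq2 hq3 h1M h2M h3M h3) hx hy hz
    have h5 := nk1 _ h4
    have h6 := nk2 _ h4
    unfold sp2 at h5 h6
    have a1 := sp_sqf hx.1 hy.1
    rw [hr]
    simp only [(sp_dv a1 hz.1 q1 hq1).2, (sp_dv hx.1 hy.1 q1 hq1).2] at h5
    simp only [(sp_dv a1 hz.1 q2 hq2).2, (sp_dv hx.1 hy.1 q2 hq2).2] at h6
    rw [sol_pair hM hodd hI hq1 hq2 h12 h1M h2M hx hy] at h5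
    revert h5 h6
    generalize sgn q1 x.1 = a
    generalize sgn q2 y.1 = b
    generalize sgn q2 x.1 = c
    generalize sgn q1 z.1 = d
    generalize sgn q2 z.1 = e
    revert a b c d e
    decide

/-- the data of a prime with two bad signs -/
lemma ty_data {s : Fin 3 → ℕ} {E : Finset ℕ} {q : ℕ} (hs : Squarefree (∏ j, s j))
    (hodd : Odd (∏ j, s j)) (h17 : ¬ 17 ∣ ∏ j, s j) (hE : E ⊆ (∏ j, s j).primeFactors)
    (hq : q.Prime)
    (hqs : ¬ q ∣ 34 * ∏ j, s j) (hT : Ty2 s E q) :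
    ((∀ w ∈ VG (∏ j, s j) (LF s E), sgn q w.1 = false) ∧
      (∀ w ∈ VG (17 * ∏ j, s j) (L17 s E), sgn q w.1 = false)) ∧
    ∃ x y, SolT (∏ j, s j) (LF s E) q x ∧ SolT (17 * ∏ j, s j) (L17 s E) q y ∧
      xor (sgn q x.1) (xor (sgn q y.1) (sg0 q 17)) = true := by
  classical
  have hq2 : q ≠ 2 := by
    rintro rfl
    exact hqs (Dvd.dvd.mul_right (by norm_num) _)
  have hq17 : q ≠ 17 := by
    rintro rfl
    exact hqs (Dvd.dvd.mul_right (by norm_num) _)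
  have hqm : ¬ q ∣ ∏ j, s j := fun h => hqs (h.mul_left _)
  have hM : 17 * ∏ j, s j ≠ 0 := mul_ne_zero (by norm_num) hs.ne_zero
  have hqM : ¬ q ∣ 17 * ∏ j, s j := by
    intro h
    rcases (hq.dvd_mul).1 h with h | h
    · exact hq17 ((Nat.prime_dvd_prime_iff_eq hq (by norm_num)).1 h)
    · exact hqm h
  have hqE : q ∉ E := fun h => hqm (Nat.dvd_of_mem_primeFactors (hE h))
  have hE2 : insert q E ∩ (∏ j, s j).primeFactors = E ∩ (∏ j, s j).primeFactors := by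
    rw [insert_inter_of_notMem]
    exact fun h => hqm (Nat.dvd_of_mem_primeFactors h)
  have hE3 : ∀ F : Finset ℕ, F = E ∨ F = insert q E →
      F ∩ (∏ j, s j).primeFactors = E ∩ (∏ j, s j).primeFactors := by
    rintro F (rfl | rfl)
    · rfl
    · exact hE2
  have hpm' : q ∈ (∏ l, Function.update s 2 (s 2 * q) l).primeFactors := by
    rw [upd_prod, Nat.mem_primeFactors]
    exact ⟨hq, dvd_mul_left _ _, mul_ne_zero hs.ne_zero hq.ne_zero⟩
  have h17' : sg0 q 17 = decide (jacobiSym 17 q = -1) := rfl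
  -- the solution from V0
  have A : ∀ F : Finset ℕ, F = E ∨ F = insert q E →
      ¬ V0 (Function.update s 2 (s 2 * q)) F ⊆ V0 s E →
      ∃ x, SolT (∏ j, s j) (LF s E) q x ∧ sgn q x.1 = decide (q ∈ F) := by
    intro F hF hne
    rw [Set.not_subset] at hne
    obtain ⟨d, hd, hd1⟩ := hne
    rw [V0_upd] at hd
    refine sol_of_ram hs.ne_zero hq hqm (downLF (hE3 F hF)) newLF hd ?_
    intro h
    have h3 := VG_restrict hs.ne_zero hq (downLF (hE3 F hF)) hd h.1 h.2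
    rw [← V0_eq] at h3
    exact hd1 h3
  have A' : ∀ F : Finset ℕ, F = E ∨ F = insert q E →
      ¬ V0 (Function.update s 2 (s 2 * q)) F ⊆ V0 s E →
      ∀ w ∈ VG (∏ j, s j) (LF s E), sgn q w.1 = false := by
    intro F hF hne
    rw [V0_upd, V0_eq] at hne
    exact nokill hs.ne_zero hodd hq hq2 hqm (fun p _ => xcLF s E p) (fun p hp => isoLF hp)
      (downLF (hE3 F hF)) newLF (V0N s E hs hodd).1 hne
  have B : ∀ F : Finset ℕ, F = E ∨ F = insert q E →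
      ¬ V17 (Function.update s 2 (s 2 * q)) F ⊆ V17 s E →
      ∃ x, SolT (17 * ∏ j, s j) (L17 s E) q x ∧ sgn q x.1 =
        decide (q ∈ tw (∏ l, Function.update s 2 (s 2 * q) l) F) := by
    intro F hF hne
    rw [Set.not_subset] at hne
    obtain ⟨d, hd, hd1⟩ := hne
    rw [V17_upd] at hd
    refine sol_of_ram hM hq hqM (down17 hs.ne_zero hq (hE3 F hF)) (new17 hq17) hd ?_
    intro h
    have h3 := VG_restrict hM hq (down17 hs.ne_zero hq (hE3 F hF)) hd h.1 h.2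
    rw [← V17_eq] at h3
    exact hd1 h3
  have B' : ∀ F : Finset ℕ, F = E ∨ F = insert q E →
      ¬ V17 (Function.update s 2 (s 2 * q)) F ⊆ V17 s E →
      ∀ w ∈ VG (17 * ∏ j, s j) (L17 s E), sgn q w.1 = false := by
    intro F hF hne
    rw [V17_upd, V17_eq] at hne
    exact nokill hM (Odd.mul (by decide) hodd) hq hq2 hqM (fun p _ => xcL17 s E p)
      (fun p hp => isoL17 hp) (down17 hs.ne_zero hq (hE3 F hF)) (new17 hq17)
      (V17N s E hs hodd h17).1 hne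
  have twF : ∀ F : Finset ℕ, decide (q ∈ tw (∏ l, Function.update s 2 (s 2 * q) l) F) =
      xor (decide (q ∈ F)) (sg0 q 17) := by
    intro F
    rw [h17']
    have e : (q ∈ tw (∏ l, Function.update s 2 (s 2 * q) l) F) ↔
        ¬ (q ∈ F ↔ jacobiSym 17 q = -1) := by
      unfold tw
      rw [mem_filter]
      simp only [hpm', true_and]
    by_cases h1 : q ∈ F <;> by_cases h2 : jacobiSym 17 q = -1 <;> simp [e, h1, h2]
  -- NG
  have hNG := NG s E q 2 hs hodd h17 hE hq hq2 hq17 hqm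
  have N0 : ¬ (¬ V0 (Function.update s 2 (s 2 * q)) E ⊆ V0 s E ∧
      ¬ V0 (Function.update s 2 (s 2 * q)) (insert q E) ⊆ V0 s E) := by
    rintro ⟨h1, h2⟩
    rcases hNG.1 with h | h
    · exact h1 h
    · exact h2 h
  have N17 : ¬ (¬ V17 (Function.update s 2 (s 2 * q)) E ⊆ V17 s E ∧
      ¬ V17 (Function.update s 2 (s 2 * q)) (insert q E) ⊆ V17 s E) := by
    rintro ⟨h1, h2⟩
    rcases hNG.2.1 with h | h
    · exact h1 h
    · exact h2 h
  obtain ⟨T1, T2⟩ := hT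
  have hfin : ∀ F F' : Finset ℕ, (F = E ∧ F' = insert q E) ∨ (F = insert q E ∧ F' = E) →
      ¬ V0 (Function.update s 2 (s 2 * q)) F ⊆ V0 s E →
      ¬ V17 (Function.update s 2 (s 2 * q)) F' ⊆ V17 s E →
      ((∀ w ∈ VG (∏ j, s j) (LF s E), sgn q w.1 = false) ∧
        (∀ w ∈ VG (17 * ∏ j, s j) (L17 s E), sgn q w.1 = false)) ∧
      ∃ x y,
      SolT (∏ j, s j) (LF s E) q x ∧ SolT (17 * ∏ j, s j) (L17 s E) q y ∧
      xor (sgn q x.1) (xor (sgn q y.1) (sg0 q 17)) = true := by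
    intro F F' hF h1 h2
    refine ⟨⟨A' F (hF.imp (fun h => h.1) (fun h => h.1)) h1,
      B' F' (hF.symm.imp (fun h => h.2) (fun h => h.2)) h2⟩, ?_⟩
    obtain ⟨x, hx, hx'⟩ := A F (hF.imp (fun h => h.1) (fun h => h.1)) h1
    obtain ⟨y, hy, hy'⟩ := B F' (hF.symm.imp (fun h => h.2) (fun h => h.2)) h2
    refine ⟨x, y, hx, hy, ?_⟩
    rw [hx', hy', twF]
    have e1 : decide (q ∈ E) = false := decide_eq_false hqE
    have e2 : decide (q ∈ insert q E) = true := decide_eq_true (mem_insert_self _ _)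
    rcases hF with ⟨rfl, rfl⟩ | ⟨rfl, rfl⟩
    · rw [e1, e2]
      generalize sg0 q 17 = a
      revert a; decide
    · rw [e1, e2]
      generalize sg0 q 17 = a
      revert a; decide
  rcases T1 with h1 | h1
  · rcases T2 with h2 | h2
    · exact absurd ⟨h1, h2⟩ N0
    · exact hfin E (insert q E) (Or.inl ⟨rfl, rfl⟩) h1 h2
  · rcases T2 with h2 | h2
    · exact hfin (insert q E) E (Or.inr ⟨rfl, rfl⟩) h2 h1
    · exact absurd ⟨h1, h2⟩ N17

theorem TYPE2 : St_TYPE2 := by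
  intro s E hs hodd h17 hE q1 q2 q3 hq1 hq2 hq3 h1 h2 h3 h123 hT
  obtain ⟨T1, T2, T3⟩ := hT
  obtain ⟨⟨k1, l1⟩, x1, y1, hx1, hy1, e1⟩ := ty_data hs hodd h17 hE hq1 h1 T1
  obtain ⟨⟨k2, l2⟩, x2, y2, hx2, hy2, e2⟩ := ty_data hs hodd h17 hE hq2 h2 T2
  obtain ⟨-, x3, y3, hx3, hy3, e3⟩ := ty_data hs hodd h17 hE hq3 h3 T3
  have hM : 17 * ∏ j, s j ≠ 0 := mul_ne_zero (by norm_num) hs.ne_zero
  have ho : Odd (17 * ∏ j, s j) := Odd.mul (by decide) hodd
  have c1 : ∀ q : ℕ, ¬ q ∣ 34 * ∏ j, s j → ¬ q ∣ 2 * ∏ j, s j := by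
    intro q h h'
    apply h
    have : 34 * ∏ j, s j = 17 * (2 * ∏ j, s j) := by ring
    rw [this]
    exact h'.mul_left _
  have c2 : ∀ q : ℕ, ¬ q ∣ 34 * ∏ j, s j → ¬ q ∣ 2 * (17 * ∏ j, s j) := by
    intro q h h'
    apply h
    have : 34 * ∏ j, s j = 2 * (17 * ∏ j, s j) := by ring
    rw [this]
    exact h'
  have m1 : q3 ≡ q1 * q2 [MOD ∏ j, s j] := h123.of_dvd (dvd_mul_left _ _)
  have m2 : q3 ≡ q1 * q2 [MOD 17 * ∏ j, s j] := h123.of_dvd ⟨8, by ring⟩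
  have m3 : q3 ≡ q1 * q2 [MOD 17] := h123.of_dvd ⟨8 * ∏ j, s j, by ring⟩
  have R1 := sol_third2 hs.ne_zero hodd (fun p _ => xcLF s E p) (fun p hp => isoLF hp) hq1 hq2
    hq3 (c1 q1 h1) (c1 q2 h2) (c1 q3 h3) k1 k2 m1 hx1 hx2 hx3
  have R2 := sol_third2 hM ho (fun p _ => xcL17 s E p) (fun p hp => isoL17 hp) hq1 hq2
    hq3 (c2 q1 h1) (c2 q2 h2) (c2 q3 h3) l1 l2 m2 hy1 hy2 hy3
  -- the symbols of 17
  have n17 : ∀ q : ℕ, q.Prime → ¬ q ∣ 34 * ∏ j, s j → ¬ (q : ℤ) ∣ 17 ∧ Odd q := by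
    intro q hq h
    refine ⟨?_, hq.odd_of_ne_two ?_⟩
    · intro h'
      have : q ∣ 17 := by exact_mod_cast h'
      exact h (Dvd.dvd.mul_right (this.trans (by norm_num)) _)
    · rintro rfl
      exact h (Dvd.dvd.mul_right (by norm_num) _)
  have J : ∀ q : ℕ, q.Prime → ¬ q ∣ 34 * ∏ j, s j → sg (sg0 q 17) = J(q | 17) := by
    intro q hq h
    obtain ⟨k1, k2⟩ := n17 q hq h
    rw [sg_sg0 hq k1]
    exact jacobiSym.quadratic_reciprocity_one_mod_four (a := 17) (by norm_num) k2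
  have e17 : J(q3 | 17) = J(q1 | 17) * J(q2 | 17) := by
    rw [← jacobiSym.mul_left, jacobiSym.mod_left (q3 : ℤ), jacobiSym.mod_left ((q1 : ℤ) * q2)]
    congr 1
    have h5 : ((q3 : ℕ) : ℤ) ≡ ((q1 * q2 : ℕ) : ℤ) [ZMOD ((17 : ℕ) : ℤ)] :=
      (Int.natCast_modEq_iff).2 m3
    rw [Nat.cast_mul] at h5
    exact h5
  rw [← J q1 hq1 h1, ← J q2 hq2 h2, ← J q3 hq3 h3] at e17
  have e17' : sg0 q3 17 = xor (sg0 q1 17) (sg0 q2 17) := by
    revert e17
    generalize sg0 q1 17 = a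
    generalize sg0 q2 17 = b
    generalize sg0 q3 17 = c
    revert a b c
    decide
  by_cases h12 : q1 = q2
  · rw [R1.1 h12, R2.1 h12, e17', h12, Bool.xor_self] at e3
    exact absurd e3 (by decide)
  · rw [R1.2 h12, R2.2 h12, e17'] at e3
    revert e1 e2 e3
    generalize sgn q1 x1.1 = a1
    generalize sgn q1 y1.1 = a2
    generalize sg0 q1 17 = a3
    generalize sgn q2 x2.1 = b1
    generalize sgn q2 y2.1 = b2
    generalize sg0 q2 17 = b3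
    revert a1 a2 a3 b1 b2 b3
    decide

end Pool.Agent.Y419.MT
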